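import Mathlib

/-!
# MP_bea9c1_pr: the chromatic number of the random graph `G_{n,1/2}`: definitions

`G_{n,1/2}` is a uniformly random labelled graph on `n` vertices, so probabilities and expectations
are averages over all `2 ^ (n choose 2)` simple graphs on `Fin n`.
-/

set_option autoImplicit false

namespace ChiVar

open Filter Topology

/-- The chromatic number of a graph on `n` vertices, as a real number. -/
noncomputable def Y (n : ℕ) (G : SimpleGraph (Fin n)) : ℝ := (G.chromaticNumber.toNat : ℝ)

/-- The expectation of `f (G_{n,1/2})`: the average of `f` over all graphs on `Fin n`. -/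
noncomputable def E (n : ℕ) (f : SimpleGraph (Fin n) → ℝ) : ℝ :=
  (∑ G, f G) / Fintype.card (SimpleGraph (Fin n))

/-- The standard deviation of the chromatic number of `G_{n,1/2}`. -/
noncomputable def sd (n : ℕ) : ℝ := √(E n fun G => (Y n G - E n (Y n)) ^ 2)

open Classical in
/-- The probability that the chromatic number of `G_{n,1/2}` is in the interval `[a, a + l]`. -/
noncomputable def P (n : ℕ) (a l : ℝ) : ℝ :=
  E n fun G => if a ≤ Y n G ∧ Y n G ≤ a + l then 1 else 0

open Classical in
/-- The probability that the chromatic number of `G_{n,1/2}` differs from its expectation by more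
than `t`. -/
noncomputable def Dev (n : ℕ) (t : ℝ) : ℝ :=
  E n fun G => if t < |Y n G - E n (Y n)| then 1 else 0

/-- The chromatic number of `G_{n,1/2}` is concentrated on intervals of length `l n`. -/
def Conc (l : ℕ → ℝ) : Prop := ∃ a : ℕ → ℝ, Tendsto (fun n => P n (a n) (l n)) atTop (𝓝 1)

/-- The assertion of Q1. -/
def Q1 : Prop :=
  ∀ l : ℕ → ℝ, (∀ n, 0 < l n) → (Conc l ↔ Tendsto (fun n => l n / sd n) atTop atTop)

end ChiVar
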