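import Pool.Agent.Lib.MP_bea9c1_pr.Defs

/-!
# MP_bea9c1_pr: the assertion of Q1 and the concentration function of the chromatic number
-/

set_option autoImplicit false

namespace ChiVar

open Filter Topology

theorem card_pos (n : ℕ) : (0 : ℝ) < Fintype.card (SimpleGraph (Fin n)) := by
  have : 0 < Fintype.card (SimpleGraph (Fin n)) := Fintype.card_pos_iff.2 ⟨⊥⟩
  exact_mod_cast this

theorem E_mono {n : ℕ} {f g : SimpleGraph (Fin n) → ℝ} (h : ∀ G, f G ≤ g G) : E n f ≤ E n g :=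
  div_le_div_of_nonneg_right (Finset.sum_le_sum fun G _ => h G) (card_pos n).le

theorem E_one (n : ℕ) : E n (fun _ => (1 : ℝ)) = 1 := by
  unfold E
  rw [Finset.sum_const, Finset.card_univ, nsmul_eq_mul, mul_one, div_self (card_pos n).ne']

theorem E_nonneg {n : ℕ} {f : SimpleGraph (Fin n) → ℝ} (h : ∀ G, 0 ≤ f G) : 0 ≤ E n f :=
  div_nonneg (Finset.sum_nonneg fun G _ => h G) (card_pos n).le

theorem E_sub_mul {n : ℕ} (f : SimpleGraph (Fin n) → ℝ) (c : ℝ) :
    E n (fun G => 1 - c * f G) = 1 - c * E n f := by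
  have h := E_one n
  unfold E at h ⊢
  rw [Finset.sum_sub_distrib, sub_div, h, ← Finset.mul_sum, mul_div_assoc]

theorem P_le_one (n : ℕ) (a l : ℝ) : P n a l ≤ 1 := by
  refine le_trans (E_mono fun G => ?_) (E_one n).le
  split_ifs <;> norm_num

theorem P_mono {n : ℕ} {a l l' : ℝ} (h : l ≤ l') : P n a l ≤ P n a l' := by
  refine E_mono fun G => ?_
  by_cases h1 : a ≤ Y n G ∧ Y n G ≤ a + l
  · rw [if_pos h1, if_pos ⟨h1.1, by linarith [h1.2]⟩]
  · rw [if_neg h1]
    split_ifs <;> norm_num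

theorem sd_nonneg (n : ℕ) : 0 ≤ sd n := Real.sqrt_nonneg _

theorem sd_sq (n : ℕ) : sd n ^ 2 = E n fun G => (Y n G - E n (Y n)) ^ 2 :=
  Real.sq_sqrt (E_nonneg fun _ => sq_nonneg _)

/-- Chebyshev's inequality in a general form. -/
theorem cheb {n : ℕ} {a l c : ℝ}
    (h : ∀ G, ¬ (a ≤ Y n G ∧ Y n G ≤ a + l) → 1 ≤ c * (Y n G - E n (Y n)) ^ 2) (hc : 0 ≤ c) :
    1 - c * sd n ^ 2 ≤ P n a l := by
  rw [sd_sq, ← E_sub_mul]
  refine E_mono fun G => ?_
  by_cases h1 : a ≤ Y n G ∧ Y n G ≤ a + l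
  · rw [if_pos h1]
    have := mul_nonneg hc (sq_nonneg (Y n G - E n (Y n)))
    linarith
  · rw [if_neg h1]
    linarith [h G h1]

/-- Uniform non-concentration on intervals of length `C` times the standard deviation. -/
def NC : Prop :=
  ∀ C : ℝ, 0 < C → ∃ δ : ℝ, 0 < δ ∧ ∃ n₀ : ℕ, ∀ n, n₀ ≤ n → ∀ a : ℝ, P n a (C * sd n) ≤ 1 - δ

theorem sd_lower (h : NC) : ∃ c : ℝ, 0 < c ∧ ∃ n₀ : ℕ, ∀ n, n₀ ≤ n → c ≤ sd n := by
  obtain ⟨δ, hδ, n₀, hn⟩ := h 1 one_pos
  refine ⟨√(δ / 4), Real.sqrt_pos.2 (by positivity), n₀, fun n hn0 => ?_⟩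
  rw [Real.sqrt_le_iff]
  refine ⟨sd_nonneg n, ?_⟩
  have h1 := hn n hn0 (round (E n (Y n)) : ℝ)
  have h2 : 1 - 4 * sd n ^ 2 ≤ P n (round (E n (Y n)) : ℝ) (1 * sd n) := by
    refine cheb (fun G hG => ?_) (by norm_num)
    have h3 : (Y n G) ≠ (round (E n (Y n)) : ℝ) := by
      intro h4
      apply hG
      rw [h4]
      exact ⟨le_rfl, by linarith [sd_nonneg n]⟩
    have h5 : 1 ≤ |Y n G - (round (E n (Y n)) : ℝ)| := by
      unfold Y at h3 ⊢
      have h6 : ((G.chromaticNumber.toNat : ℤ) - round (E n (Y n))) ≠ 0 := by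
        intro h7
        apply h3
        have h8 : (G.chromaticNumber.toNat : ℤ) = round (E n (Y n)) := by omega
        exact_mod_cast congrArg (Int.cast (R := ℝ)) h8
      have h9 := Int.one_le_abs h6
      exact_mod_cast h9
    have h10 := abs_sub_round (E n (Y n))
    have h11 : 1 / 2 ≤ |Y n G - E n (Y n)| := by
      have h12 := abs_sub_le (Y n G) (E n (Y n)) (round (E n (Y n)) : ℝ)
      linarith
    have h13 := mul_self_le_mul_self (by norm_num) h11
    rw [← pow_two, ← pow_two, sq_abs] at h13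
    linarith
  linarith

theorem bounded (h : NC) (K : ℝ) (hK : 0 < K) :
    ∃ δ : ℝ, 0 < δ ∧ ∃ n₀ : ℕ, ∀ n, n₀ ≤ n → ∀ a : ℝ, P n a K ≤ 1 - δ := by
  obtain ⟨c, hc, n₁, h1⟩ := sd_lower h
  obtain ⟨δ, hδ, n₂, h2⟩ := h (K / c) (by positivity)
  refine ⟨δ, hδ, max n₁ n₂, fun n hn a => ?_⟩
  refine le_trans (P_mono ?_) (h2 n (le_trans (le_max_right _ _) hn) a)
  have h3 := h1 n (le_trans (le_max_left _ _) hn)
  rw [div_mul_eq_mul_div, le_div_iff₀ hc]
  exact mul_le_mul_of_nonneg_left h3 hK.le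

theorem P_eq_one {n : ℕ} {l : ℝ} (h : ∑ G, Y n G ≤ l) : P n 0 l = 1 := by
  refine le_antisymm (P_le_one _ _ _) ?_
  rw [← E_one n]
  refine E_mono fun G => ?_
  have h0 : ∀ G, 0 ≤ Y n G := fun G => Nat.cast_nonneg _
  have h1 : Y n G ≤ 0 + l := by
    rw [zero_add]
    exact (Finset.single_le_sum (fun G _ => h0 G) (Finset.mem_univ G)).trans h
  rw [if_pos ⟨h0 G, h1⟩]

theorem nc_of_q1 (h : Q1) : NC := by
  classical
  by_contra hcon
  unfold NC at hcon
  push Not at hcon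
  obtain ⟨C, hC, hcon⟩ := hcon
  have h1 : ∀ j : ℕ, ∃ᶠ n in atTop, ∃ a : ℝ, 1 - 1 / ((j : ℝ) + 1) < P n a (C * sd n) := by
    intro j
    rw [frequently_atTop]
    intro n₀
    obtain ⟨n, hn, a, ha⟩ := hcon (1 / ((j : ℝ) + 1)) (by positivity) n₀
    exact ⟨n, hn, a, ha⟩
  obtain ⟨φ, hφ, h2⟩ := extraction_forall_of_frequently h1
  choose a ha using h2
  let L : ℕ → ℝ := fun n =>
    if (∃ j, φ j = n) ∧ 0 < sd n then C * sd n else 1 + ∑ G, Y n G
  have hY : ∀ n, 0 ≤ ∑ G, Y n G := fun n => Finset.sum_nonneg fun G _ => Nat.cast_nonneg _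
  have hL : ∀ n, 0 < L n := by
    intro n
    simp only [L]
    split_ifs with h3
    · exact mul_pos hC h3.2
    · linarith [hY n]
  have hL2 : ∀ j, C * sd (φ j) ≤ L (φ j) := by
    intro j
    simp only [L]
    split_ifs with h3
    · exact le_rfl
    · have h4 : sd (φ j) = 0 := by
        by_contra h5
        exact h3 ⟨⟨j, rfl⟩, lt_of_le_of_ne (sd_nonneg _) (Ne.symm h5)⟩
      rw [h4, mul_zero]
      linarith [hY (φ j)]
  have hconc : Conc L := by
    refine ⟨Function.extend φ a 0, ?_⟩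
    rw [Metric.tendsto_atTop]
    intro ε hε
    obtain ⟨J, hJ⟩ := exists_nat_one_div_lt hε
    refine ⟨φ J, fun n hn => ?_⟩
    have h5 : 1 - ε < P n (Function.extend φ a 0 n) (L n) := by
      by_cases h6 : ∃ j, φ j = n
      · obtain ⟨j, rfl⟩ := h6
        rw [hφ.injective.extend_apply]
        have h7 : J ≤ j := hφ.le_iff_le.1 hn
        have h8 : 1 / ((j : ℝ) + 1) ≤ 1 / ((J : ℝ) + 1) := by
          apply one_div_le_one_div_of_le (by positivity)
          have : (J : ℝ) ≤ j := by exact_mod_cast h7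
          linarith
        have h9 := P_mono (n := φ j) (a := a j) (hL2 j)
        linarith [ha j]
      · rw [Function.extend_apply' _ _ _ h6]
        have h7 : L n = 1 + ∑ G, Y n G := by
          simp only [L]
          rw [if_neg (fun h8 => h6 h8.1)]
        rw [Pi.zero_apply, h7, P_eq_one (by linarith)]
        linarith
    have h10 := P_le_one n (Function.extend φ a 0 n) (L n)
    rw [Real.dist_eq, abs_lt]
    constructor <;> linarith
  have h11 := ((h L hL).1 hconc).comp hφ.tendsto_atTop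
  obtain ⟨j, hj⟩ := (h11.eventually (eventually_gt_atTop C)).exists
  simp only [Function.comp, L] at hj
  rcases (sd_nonneg (φ j)).lt_or_eq with h12 | h12
  · rw [if_pos ⟨⟨j, rfl⟩, h12⟩, mul_div_assoc, div_self h12.ne', mul_one] at hj
    exact lt_irrefl _ hj
  · rw [← h12, div_zero] at hj
    exact lt_asymm hj hC

theorem q1_of_nc (h : NC) : Q1 := by
  intro l hl
  constructor
  · rintro ⟨a, ha⟩
    rw [tendsto_atTop]
    intro C₀
    obtain ⟨c, hc, n₁, h1⟩ := sd_lower h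
    obtain ⟨δ, hδ, n₂, h2⟩ := h (max C₀ 1) (lt_max_of_lt_right one_pos)
    have h3 : ∀ᶠ n in atTop, 1 - δ < P n (a n) (l n) :=
      (tendsto_order.1 ha).1 _ (by linarith)
    filter_upwards [h3, eventually_ge_atTop n₁, eventually_ge_atTop n₂] with n h4 h5 h6
    have h7 : 0 < sd n := hc.trans_le (h1 n h5)
    refine (le_max_left C₀ 1).trans ?_
    rw [le_div_iff₀ h7]
    by_contra h8
    push Not at h8
    have h9 := P_mono (n := n) (a := a n) h8.le
    linarith [h2 n h6 (a n)]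
  · intro ht
    refine ⟨fun n => E n (Y n) - l n / 2, ?_⟩
    have h1 : Tendsto (fun n => 1 - 4 * ((l n / sd n)⁻¹) ^ 2) atTop (𝓝 (1 - 4 * 0 ^ 2)) :=
      tendsto_const_nhds.sub ((ht.inv_tendsto_atTop.pow 2).const_mul 4)
    have h2 : (1 : ℝ) - 4 * 0 ^ 2 = 1 := by norm_num
    rw [h2] at h1
    refine tendsto_of_tendsto_of_tendsto_of_le_of_le h1 tendsto_const_nhds (fun n => ?_)
      fun n => P_le_one _ _ _
    have h3 := hl n
    have h4 : 1 - 4 / l n ^ 2 * sd n ^ 2 ≤ P n (E n (Y n) - l n / 2) (l n) := by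
      refine cheb (fun G hG => ?_) (by positivity)
      have h5 : l n / 2 ≤ |Y n G - E n (Y n)| := by
        by_contra h6
        push Not at h6
        rw [abs_lt] at h6
        exact hG ⟨by linarith [h6.1], by linarith [h6.2]⟩
      have h7 := mul_self_le_mul_self (by positivity) h5
      rw [← pow_two, ← pow_two, sq_abs] at h7
      rw [div_mul_eq_mul_div, le_div_iff₀ (by positivity)]
      linarith
    refine le_trans (le_of_eq ?_) h4
    rw [inv_div, div_pow]
    ring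

theorem q1_iff : Q1 ↔ NC := ⟨nc_of_q1, q1_of_nc⟩

/-- Deviations by more than `C` times the standard deviation keep a positive probability. -/
def Tail : Prop :=
  ∀ C : ℝ, 0 < C → ∃ δ : ℝ, 0 < δ ∧ ∃ n₀ : ℕ, ∀ n, n₀ ≤ n → δ ≤ Dev n (C * sd n)

theorem E_mul {n : ℕ} (f : SimpleGraph (Fin n) → ℝ) (c : ℝ) :
    E n (fun G => c * f G) = c * E n f := by
  unfold E
  rw [← Finset.mul_sum, mul_div_assoc]

/-- If all values in `[a, a + l]` are within `t` of the expectation. -/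
theorem P_le_of_near {n : ℕ} {a l t : ℝ}
    (h : ∀ G, a ≤ Y n G ∧ Y n G ≤ a + l → |Y n G - E n (Y n)| ≤ t) :
    P n a l ≤ 1 - Dev n t := by
  have h1 : 1 - Dev n t = E n fun G => 1 - 1 * (if t < |Y n G - E n (Y n)| then (1 : ℝ) else 0) := by
    rw [E_sub_mul, one_mul]
    rfl
  rw [h1]
  refine E_mono fun G => ?_
  by_cases h2 : a ≤ Y n G ∧ Y n G ≤ a + l
  · rw [if_pos h2, if_neg (not_lt.2 (h G h2))]
    norm_num
  · rw [if_neg h2]
    split_ifs <;> norm_num

theorem Dev_ge {n : ℕ} {t : ℝ} : 1 - P n (E n (Y n) - t) (2 * t) ≤ Dev n t := by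
  have h1 : 1 - P n (E n (Y n) - t) (2 * t) = E n fun G => 1 - 1 *
      (if E n (Y n) - t ≤ Y n G ∧ Y n G ≤ E n (Y n) - t + 2 * t then (1 : ℝ) else 0) := by
    rw [E_sub_mul, one_mul]
    rfl
  rw [h1]
  refine E_mono fun G => ?_
  by_cases h2 : t < |Y n G - E n (Y n)|
  · rw [if_pos h2]
    split_ifs <;> norm_num
  · rw [if_neg h2, if_pos]
    · norm_num
    · push Not at h2
      rw [abs_le] at h2
      constructor <;> linarith [h2.1, h2.2]

theorem tail_of_nc (h : NC) : Tail := by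
  intro C hC
  obtain ⟨δ, hδ, n₀, hn⟩ := h (2 * C) (by positivity)
  refine ⟨δ, hδ, n₀, fun n h0 => le_trans ?_ Dev_ge⟩
  have h1 := hn n h0 (E n (Y n) - C * sd n)
  rw [mul_assoc] at h1
  linarith

theorem sd_pos_of_dev {n : ℕ} {t δ : ℝ} (hδ : 0 < δ) (ht : 0 ≤ t) (h : δ ≤ Dev n t) :
    0 < sd n := by
  refine lt_of_le_of_ne (sd_nonneg n) fun h0 => ?_
  have h1 : ∀ G, Y n G = E n (Y n) := by
    have h2 := sd_sq n
    rw [← h0, zero_pow two_ne_zero] at h2
    unfold E at h2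
    have h3 := (div_eq_zero_iff.1 h2.symm).resolve_right (card_pos n).ne'
    rw [Finset.sum_eq_zero_iff_of_nonneg (fun G _ => sq_nonneg _)] at h3
    intro G
    have h4 := pow_eq_zero_iff two_ne_zero |>.1 (h3 G (Finset.mem_univ G))
    exact sub_eq_zero.1 h4
  have h5 : Dev n t ≤ 0 := by
    have h6 : (0 : ℝ) = E n (fun G => 0 * (1 : ℝ)) := by
      rw [E_mul, zero_mul]
    rw [h6]
    refine E_mono fun G => ?_
    rw [← h1 G, sub_self, abs_zero, if_neg (not_lt.2 ht), zero_mul]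
  linarith

theorem nc_of_tail (h : Tail) : NC := by
  intro C hC
  obtain ⟨δ, hδ, n₀, hn⟩ := h (C + 2) (by positivity)
  refine ⟨min δ (1 / 2), lt_min hδ (by norm_num), n₀, fun n h0 a => ?_⟩
  have h1 := hn n h0
  have h2 : 0 < sd n := sd_pos_of_dev hδ (mul_nonneg (by positivity) (sd_nonneg n)) h1
  by_cases h3 : ∃ x : ℝ, (a ≤ x ∧ x ≤ a + C * sd n) ∧ |x - E n (Y n)| ≤ 2 * sd n
  · obtain ⟨x, ⟨hx1, hx2⟩, hx3⟩ := h3
    have h4 : P n a (C * sd n) ≤ 1 - Dev n ((C + 2) * sd n) := by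
      refine P_le_of_near fun G hG => ?_
      rw [abs_le] at hx3 ⊢
      constructor <;> nlinarith [hG.1, hG.2, hx3.1, hx3.2]
    linarith [min_le_left δ (1 / 2)]
  · push Not at h3
    have h4 : P n a (C * sd n) ≤ E n fun G => 1 / (4 * sd n ^ 2) * (Y n G - E n (Y n)) ^ 2 := by
      refine E_mono fun G => ?_
      by_cases h5 : a ≤ Y n G ∧ Y n G ≤ a + C * sd n
      · rw [if_pos h5]
        have h6 := h3 _ h5
        have h7 := mul_self_le_mul_self (by positivity) h6.le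
        rw [← pow_two, ← pow_two, sq_abs] at h7
        rw [one_div_mul_eq_div, le_div_iff₀ (by positivity)]
        linarith
      · rw [if_neg h5]
        positivity
    rw [E_mul, ← sd_sq] at h4
    have h5 : 1 / (4 * sd n ^ 2) * sd n ^ 2 = 1 / 4 := by
      field_simp
    rw [h5] at h4
    linarith [min_le_right δ (1 / 2)]

theorem tfae : [Q1, NC, Tail].TFAE := by
  tfae_have 1 ↔ 2 := q1_iff
  tfae_have 2 → 3 := tail_of_nc
  tfae_have 3 → 2 := nc_of_tail
  tfae_finish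

end ChiVar
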